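import Mathlib

/-!
# Relative termination of a four-letter string rewriting system

`R = {ad → db, a → bbb, d → ε, a → ε, bc → cdd, ac → bbcd}` is terminating relative to
`S = {bdb → ad, ad → bdb}`.

The measure: a `d` is called active if there is a letter `a` or `b` between it and the last `c` to its
left (or the start of the string). The weight of a letter `b` is `3 ^ k` and the weight of a letter
`a` is `4 * 3 ^ k`, where `k` is the number of active letters `d` between it and the last `c` to its
left. The total weight is unchanged by the rules in `S`, never increases under `d → ε` and strictly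
decreases under all other rules in `R`; the number of letters `d` is unchanged by the rules in `S`
and decreases under `d → ε`.
-/

set_option autoImplicit false

namespace Pool.Agent.Results.MP_081fbf_lc.RelTermination

/-- The alphabet with the four letters `a`, `b`, `c`, `d`. -/
inductive Letter where
  | a | b | c | d

open Letter

/-- A rewriting system is a set of rules `l → r`, given as pairs `(l, r)` of strings. One rewrite
step `x → y` of the system `T`: `x = u l v` and `y = u r v` for some rule `l → r` in `T`. -/
def Step (T : Set (List Letter × List Letter)) (x y : List Letter) : Prop :=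
  ∃ u v l r : List Letter, (l, r) ∈ T ∧ x = u ++ l ++ v ∧ y = u ++ r ++ v

/-- `R` is terminating relative to `S`: in every infinite rewrite sequence of `R ∪ S` only finitely
many steps are steps of `R`. -/
def TerminatesRelativeTo (R S : Set (List Letter × List Letter)) : Prop :=
  ∀ x : ℕ → List Letter, (∀ n, Step (R ∪ S) (x n) (x (n + 1))) →
    {n | Step R (x n) (x (n + 1))}.Finite

/-- The strict rules `ad → db`, `a → bbb`, `d → ε`, `a → ε`, `bc → cdd`, `ac → bbcd`. -/
def R : Set (List Letter × List Letter) :=
  {([a, d], [d, b]), ([a], [b, b, b]), ([d], []), ([a], []), ([b, c], [c, d, d]),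
    ([a, c], [b, b, c, d])}

/-- The non-strict rules `bdb → ad`, `ad → bdb`. -/
def S : Set (List Letter × List Letter) :=
  {([b, d, b], [a, d]), ([a, d], [b, d, b])}

/-- The weight of a string which is read in the state `m`. -/
def W : ℕ → List Letter → ℕ
  | _, [] => 0
  | m, a :: l => 4 * max m 1 + W (max m 1) l
  | m, b :: l => max m 1 + W (max m 1) l
  | m, d :: l => W (3 * m) l
  | _, c :: l => W 0 l

theorem W_mono : ∀ (l : List Letter) (m m' : ℕ), m ≤ m' → W m l ≤ W m' l
  | [], _, _, _ => by simp [W]
  | a :: l, m, m', h => by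
    have h1 : max m 1 ≤ max m' 1 := max_le_max h le_rfl
    have := W_mono l _ _ h1
    simp only [W]; omega
  | b :: l, m, m', h => by
    have h1 : max m 1 ≤ max m' 1 := max_le_max h le_rfl
    have := W_mono l _ _ h1
    simp only [W]; omega
  | d :: l, m, m', h => by
    simp only [W]
    exact W_mono l _ _ (by omega)
  | c :: l, m, m', _ => by simp [W]

/-- The number of letters `d`. -/
def D : List Letter → ℕ
  | [] => 0
  | d :: l => D l + 1
  | a :: l => D l
  | b :: l => D l
  | c :: l => D l

theorem D_append (x y : List Letter) : D (x ++ y) = D x + D y := by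
  induction x with
  | nil => simp [D]
  | cons e x ih => cases e <;> simp [D, ih] <;> omega

theorem W_lt (u : List Letter) {l r : List Letter} (h : ∀ m, W m l < W m r) (m : ℕ) :
    W m (u ++ l) < W m (u ++ r) := by
  induction u generalizing m with
  | nil => exact h m
  | cons e u ih => cases e <;> simp [W, ih]

theorem W_le (u : List Letter) {l r : List Letter} (h : ∀ m, W m l ≤ W m r) (m : ℕ) :
    W m (u ++ l) ≤ W m (u ++ r) := by
  induction u generalizing m with
  | nil => exact h m
  | cons e u ih => cases e <;> simp [W, ih]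

/-- The measure, in the lexicographic order. -/
def M (x : List Letter) : ℕ ×ₗ ℕ := toLex (W 0 x, D x)

theorem M_lt {x y : List Letter} (h : Step R x y) : M y < M x := by
  obtain ⟨u, v, l, r, hR, rfl, rfl⟩ := h
  unfold M
  rw [Prod.Lex.toLex_lt_toLex]
  simp only [R, Set.mem_insert_iff, Set.mem_singleton_iff, Prod.mk.injEq] at hR
  rw [List.append_assoc, List.append_assoc]
  rcases hR with ⟨rfl, rfl⟩ | ⟨rfl, rfl⟩ | ⟨rfl, rfl⟩ | ⟨rfl, rfl⟩ | ⟨rfl, rfl⟩ | ⟨rfl, rfl⟩
  · left
    refine W_lt u (fun m => ?_) 0
    simp only [List.cons_append, List.nil_append, W]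
    have h1 : max (3 * m) 1 ≤ 3 * max m 1 := by omega
    have := W_mono v _ _ h1
    omega
  · left
    refine W_lt u (fun m => ?_) 0
    simp only [List.cons_append, List.nil_append, W]
    have h1 : max (max m 1) 1 = max m 1 := by omega
    simp only [h1]
    omega
  · have h1 : W 0 (u ++ ([] ++ v)) ≤ W 0 (u ++ ([d] ++ v)) := by
      refine W_le u (fun m => ?_) 0
      simp only [List.cons_append, List.nil_append, W]
      exact W_mono v _ _ (by omega)
    rcases lt_or_eq_of_le h1 with h2 | h2
    · exact Or.inl h2
    · refine Or.inr ⟨h2, ?_⟩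
      simp [D_append, D]
  · left
    refine W_lt u (fun m => ?_) 0
    simp only [List.cons_append, List.nil_append, W]
    have := W_mono v m (max m 1) (by omega)
    omega
  · left
    refine W_lt u (fun m => ?_) 0
    simp only [List.cons_append, List.nil_append, W]
    simp
  · left
    refine W_lt u (fun m => ?_) 0
    simp only [List.cons_append, List.nil_append, W]
    have h1 : max (max m 1) 1 = max m 1 := by omega
    simp only [h1, Nat.mul_zero]
    omega

theorem M_le {x y : List Letter} (h : Step S x y) : M y ≤ M x := by
  obtain ⟨u, v, l, r, hR, rfl, rfl⟩ := h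
  have hW : ∀ m, W m ([b, d, b] ++ v) = W m ([a, d] ++ v) := by
    intro m
    simp only [List.cons_append, List.nil_append, W]
    have h1 : max (3 * max m 1) 1 = 3 * max m 1 := by omega
    simp only [h1]
    omega
  have hD : D (u ++ ([b, d, b] ++ v)) = D (u ++ ([a, d] ++ v)) := by
    simp [D_append, D]
  have h2 : W 0 (u ++ ([b, d, b] ++ v)) = W 0 (u ++ ([a, d] ++ v)) :=
    le_antisymm (W_le u (fun m => (hW m).le) 0) (W_le u (fun m => (hW m).ge) 0)
  simp only [S, Set.mem_insert_iff, Set.mem_singleton_iff, Prod.mk.injEq] at hR
  rw [List.append_assoc, List.append_assoc]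
  rcases hR with ⟨rfl, rfl⟩ | ⟨rfl, rfl⟩
  · unfold M; rw [h2, hD]
  · unfold M; rw [h2, hD]

/-- **Theorem.** The system `R` is terminating relative to the system `S`. -/
theorem result : TerminatesRelativeTo R S := by
  intro x hx
  have hle : ∀ n, M (x (n + 1)) ≤ M (x n) := by
    intro n
    obtain ⟨u, v, l, r, hRS, h1, h2⟩ := hx n
    rcases hRS with h | h
    · exact (M_lt ⟨u, v, l, r, h, h1, h2⟩).le
    · exact M_le ⟨u, v, l, r, h, h1, h2⟩
  have hanti : Antitone (fun n => M (x n)) := antitone_nat_of_succ_le hle
  obtain ⟨p, ⟨N, hN⟩, hmin⟩ :=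
    WellFounded.has_min (wellFounded_lt (α := ℕ ×ₗ ℕ)) (Set.range fun n => M (x n))
      ⟨_, ⟨0, rfl⟩⟩
  refine (Set.finite_Iio N).subset (fun n hn => ?_)
  by_contra hcon
  have hNn : N ≤ n := not_lt.mp hcon
  have h1 : M (x (n + 1)) < M (x n) := M_lt hn
  have h2 : M (x n) ≤ M (x N) := hanti hNn
  have hN' : M (x N) = p := hN
  exact hmin _ ⟨n + 1, rfl⟩ (lt_of_lt_of_le h1 (hN' ▸ h2))

end Pool.Agent.Results.MP_081fbf_lc.RelTermination
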